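import Mathlib
import Pool.Agent.Lib_helper69.QG.Defs
import Pool.Agent.Lib_helper69.QG.Field

/-!
# Project HK (MP_5fc650_pr): Gaussian limit of the hammock surface. Definitions, Parts A and B.

Paper: `/team-store/HK_paper_helper12.md`.
-/

set_option autoImplicit false

namespace HK

open MeasureTheory QG

/-! ## Densities on the line -/

/-- a continuous density with compact support, positive on an interval, with a bounded weak
derivative `d` -/
structure Dn (g d : ℝ → ℝ) : Prop where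
  nonneg : ∀ x, 0 ≤ g x
  cont : Continuous g
  supp : ∃ R : ℝ, ∀ x, g x ≠ 0 → |x| ≤ R
  conn : Set.OrdConnected {x | 0 < g x}
  int : ∫ x, g x = 1
  meas : Measurable d
  bdd : ∃ C : ℝ, ∀ x, |d x| ≤ C
  zero : ∀ x, g x = 0 → d x = 0
  ftc : ∀ a b, g b - g a = ∫ r in a..b, d r

/-! ## Densities on `A → ℝ`, pinned at `p`, and the adaptive quantile coupling -/

section
variable {A : Type} [Fintype A] [DecidableEq A]

/-- a density on the fields that vanish at `p`, with weak partial derivatives `D k` -/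
structure Reg (p : A) (f : (A → ℝ) → ℝ) (D : A → (A → ℝ) → ℝ) : Prop where
  nonneg : ∀ x, 0 ≤ f x
  cont : Continuous f
  supp : ∃ R : ℝ, ∀ x, x p = 0 → f x ≠ 0 → ∀ i, |x i| ≤ R
  conv : Convex ℝ {x | 0 < f x}
  int : ∫ x, f x ∂bs p = 1
  meas : ∀ k, Measurable (D k)
  bdd : ∃ C : ℝ, ∀ k x, x p = 0 → |D k x| ≤ C
  zero : ∀ k x, f x = 0 → D k x = 0
  ftc : ∀ k, k ≠ p → ∀ (x : A → ℝ) (a b : ℝ), x p = 0 →
    f (Function.update x k b) - f (Function.update x k a) =
      ∫ r in a..b, D k (Function.update x k r)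

/-- the function `f` integrated over the coordinates in `S` -/
noncomputable def mg (f : (A → ℝ) → ℝ) (S : Finset A) (x : A → ℝ) : ℝ :=
  ∫ y : S → ℝ, f (Function.updateFinset x S y)

/-- the same for nonnegative functions -/
noncomputable def lmg (f : (A → ℝ) → ENNReal) (S : Finset A) (x : A → ℝ) : ENNReal :=
  ∫⁻ y : S → ℝ, f (Function.updateFinset x S y)

/-- the conditional density at `k ∈ S`, the coordinates outside `S` having the values `x` -/
noncomputable def cde (f : (A → ℝ) → ℝ) (S : Finset A) (x : A → ℝ) (k : A) (r : ℝ) : ℝ :=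
  mg f (S.erase k) (Function.update x k r) / mg f S x

/-- a state: the set of the unsampled sites and the two fields -/
abbrev St (A : Type) : Type := Finset A × (A → ℝ) × (A → ℝ)

/-- a policy chooses the next site -/
structure Pol (σ : St A → A) : Prop where
  meas : ∀ (S : Finset A) (k : A), MeasurableSet {b : (A → ℝ) × (A → ℝ) | σ (S, b) = k}
  mem : ∀ s : St A, s.1.Nonempty → σ s ∈ s.1

/-- one step: the next site gets the `u`-quantiles of the two conditional densities -/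
noncomputable def step (f f' : (A → ℝ) → ℝ) (σ : St A → A) (s : St A) (u : ℝ) : St A :=
  (s.1.erase (σ s), Function.update s.2.1 (σ s) (qt (cde f s.1 s.2.1 (σ s)) u),
    Function.update s.2.2 (σ s) (qt (cde f' s.1 s.2.2 (σ s)) u))

/-- the adaptive quantile coupling `(z, z')` of two densities (properties used in the paper) -/
structure ACpl (p : A) (f f' : (A → ℝ) → ℝ) (D D' : A → (A → ℝ) → ℝ) (σ : St A → A)
    {Ω : Type} [MeasurableSpace Ω] (P : Measure Ω) (z z' : Ω → A → ℝ) : Prop where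
  prob : IsProbabilityMeasure P
  meas : Measurable z
  meas' : Measurable z'
  law : P.map z = (bs p).withDensity (fun x => ENNReal.ofReal (f x))
  law' : P.map z' = (bs p).withDensity (fun x => ENNReal.ofReal (f' x))
  zp : ∀ ω, z ω p = 0 ∧ z' ω p = 0 ∧ 0 < f (z ω) ∧ 0 < f' (z' ω)
  int : ∀ k, k ≠ p → Integrable (fun ω => D k (z ω) / f (z ω)) P ∧
    Integrable (fun ω => D' k (z' ω) / f' (z' ω)) P
  key : ∀ k, k ≠ p →
    ∫ ω, (z' ω k - z ω k) * (D k (z ω) / f (z ω) - D' k (z' ω) / f' (z' ω)) ∂P ≤ 0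
  run : ∀ J : Set (St A), (Finset.univ.erase p, 0, 0) ∈ J →
    (∀ s ∈ J, s.1.Nonempty → p ∉ s.1 → s.2.1 p = 0 → s.2.2 p = 0 → 0 < mg f s.1 s.2.1 →
      0 < mg f' s.1 s.2.2 → ∀ u ∈ Set.Ioo (0 : ℝ) 1, step f f' σ s u ∈ J) →
    ∀ ω, ((∅, z ω, z' ω) : St A) ∈ J
  cond : ∀ T : Finset A, p ∉ T → (∀ s : St A, ¬ s.1 ⊆ T → σ s ∉ T) →
    ∀ (Φ : (A → ℝ) × (A → ℝ) → ENNReal) (Ψ : (A → ℝ) → ENNReal), Measurable Φ → Measurable Ψ →
    (∀ x x' y y' : A → ℝ, (∀ i ∉ T, x i = y i) → (∀ i ∉ T, x' i = y' i) → Φ (x, x') = Φ (y, y')) →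
    ∫⁻ ω, Φ (z ω, z' ω) * Ψ (z ω) ∂P =
      ∫⁻ ω, Φ (z ω, z' ω) * (lmg (fun x => ENNReal.ofReal (f x) * Ψ x) T (z ω) /
        lmg (fun x => ENNReal.ofReal (f x)) T (z ω)) ∂P

end

end HK
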