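import Mathlib
import Pool.Agent.Lib_helper69.QG.Defs
import Pool.Agent.Lib_helper69.QG.Field
import Pool.Agent.Lib_helper69.QG.Geo
import Pool.Agent.Lib_helper12.HK.DefsA

/-!
# Project HK (MP_5fc650_pr): Gaussian limit of the hammock surface. Definitions: the hammock field
and the lattice `K`.

Paper: `/team-store/HK_paper_helper12.md`.
-/

set_option autoImplicit false

namespace HK

open MeasureTheory QG

/-! ## The hammock cell -/

/-- the oscillation -/
noncomputable def osc (t : Fin 4 → ℝ) : ℝ :=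
  Finset.univ.sup' Finset.univ_nonempty t - Finset.univ.inf' Finset.univ_nonempty t

/-- the weight of a cell -/
noncomputable def wh (t : Fin 4 → ℝ) : ℝ := max 0 (2 - osc t)

open Classical in
/-- the first index with the maximal value -/
noncomputable def am (t : Fin 4 → ℝ) : Fin 4 :=
  if ∀ j, t j ≤ t 0 then 0 else if ∀ j, t j ≤ t 1 then 1 else if ∀ j, t j ≤ t 2 then 2 else 3

/-- the first index with the minimal value -/
noncomputable def an (t : Fin 4 → ℝ) : Fin 4 := am (fun i => - t i)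

/-- the forces -/
noncomputable def Gh (i : Fin 4) (t : Fin 4 → ℝ) : ℝ :=
  ((if i = am t then 1 else 0) - (if i = an t then 1 else 0)) / (2 - osc t)

/-! ## The field on the even sites of the torus -/

section
variable (n : ℕ) [NeZero n]

/-- the pinned site, far from `0` and `(n, n)` -/
def pp : Ev n := dg n (n + n / 2)

/-- the field with tilt `l` -/
noncomputable def muh (l : Ev n → ℝ) : Measure (Ev n → ℝ) := mu wh (cn n) (pp n) l

/-- the density of the even field pinned at `pp n` -/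
noncomputable def fh (a : Ev n → ℝ) : ℝ := wt wh (cn n) 0 a / Zt wh (cn n) (pp n) 0

/-- its weak derivatives -/
noncomputable def Dh (k : Ev n) (a : Ev n → ℝ) : ℝ := -(fh n a * Fo Gh (cn n) a k)

end

/-! ## The lattice `K = (d ℤ)²`, `d = 2 m` -/

/-- nearest neighbours in `ℤ × ℤ` -/
def nn (k k' : ℤ × ℤ) : Prop := |k.1 - k'.1| + |k.2 - k'.2| = 1

/-- the maximum distance -/
def di (k k' : ℤ × ℤ) : ℕ := max (k.1 - k'.1).natAbs (k.2 - k'.2).natAbs

/-- the site `d k`, `d = 2 m` -/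
def ke (n m : ℕ) (k : ℤ × ℤ) : Ev n :=
  ⟨(((2 * m * k.1 : ℤ) : ZMod (2 * n)), ((2 * m * k.2 : ℤ) : ZMod (2 * n))), by
    rw [par_int]
    have h : (2 * m * k.1 + 2 * m * k.2 : ℤ) = 2 * (m * k.1 + m * k.2) := by ring
    rw [h]
    push_cast
    have h2 : (2 : ZMod 2) = 0 := by decide
    rw [h2, zero_mul]⟩

/-- the planar box of `K`-indices; the `K`-sites have coordinates in `[- n / 4, 5 n / 4]` -/
noncomputable def Lam (n m : ℕ) : Finset (ℤ × ℤ) :=
  (Finset.Icc (-((n / (8 * m) : ℕ) : ℤ)) ((5 * n / (8 * m) : ℕ) : ℤ)) ×ˢ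
    (Finset.Icc (-((n / (8 * m) : ℕ) : ℤ)) ((5 * n / (8 * m) : ℕ) : ℤ))

/-- the indices with distance at least `r` to the complement of the box -/
noncomputable def LamI (n m r : ℕ) : Finset (ℤ × ℤ) :=
  (Finset.Icc (r - ((n / (8 * m) : ℕ) : ℤ)) (((5 * n / (8 * m) : ℕ) : ℤ) - r)) ×ˢ
    (Finset.Icc (r - ((n / (8 * m) : ℕ) : ℤ)) (((5 * n / (8 * m) : ℕ) : ℤ) - r))

/-- the radius of the windows -/
def R0 : ℕ := 10000

/-- the slope parameter -/
noncomputable def ep : ℝ := 1 / 2000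

/-- the edge between `k` and `k'` is steep -/
def Steep (n m : ℕ) (a : Ev n → ℝ) (k k' : ℤ × ℤ) : Prop :=
  (1 - ep) * (2 * m) < |a (ke n m k) - a (ke n m k')|

/-- `k` is bad: some edge in its window is steep -/
def Bad (n m : ℕ) (a : Ev n → ℝ) (k : ℤ × ℤ) : Prop :=
  k ∈ LamI n m R0 ∧ ∃ k1 k2, nn k1 k2 ∧ di k k1 ≤ R0 ∧ di k k2 ≤ R0 ∧ Steep n m a k1 k2

open Classical in
/-- the set of the bad vertices -/
noncomputable def Bds (n m : ℕ) (a : Ev n → ℝ) : Finset (ℤ × ℤ) :=
  (LamI n m R0).filter fun k => Bad n m a k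

open Classical in
/-- the sites that are not in `K` (and not pinned) -/
noncomputable def nonK (n m : ℕ) [NeZero n] : Finset (Ev n) :=
  Finset.univ.filter fun y => y ≠ pp n ∧ ∀ k ∈ Lam n m, ke n m k ≠ y

/-- the opposite direction (directions as in `QG.dir`) -/
def op (i : Fin 4) : Fin 4 := ![1, 0, 3, 2] i

/-- the direction `i` in `ℤ × ℤ` -/
def dz (i : Fin 4) : ℤ × ℤ := ![(-1, 0), (1, 0), (0, 1), (0, -1)] i

/-- the site `d k + s e_i` for odd `s`: the cells between `k` and its neighbour in direction `i` -/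
def sc (n m : ℕ) (k : ℤ × ℤ) (i : Fin 4) (j : ℕ) : Od n :=
  ⟨(((2 * m * k.1 + (2 * j + 1) * (dz i).1 : ℤ) : ZMod (2 * n)),
    ((2 * m * k.2 + (2 * j + 1) * (dz i).2 : ℤ) : ZMod (2 * n))), by
    rw [par_int]
    have h : (2 * m * k.1 + (2 * j + 1) * (dz i).1 + (2 * m * k.2 + (2 * j + 1) * (dz i).2) : ℤ) =
        2 * (m * k.1 + m * k.2 + j * (dz i).1 + j * (dz i).2) + ((dz i).1 + (dz i).2) := by ring
    rw [h]
    push_cast
    have h2 : (2 : ZMod 2) = 0 := by decide
    rw [h2, zero_mul, zero_add]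
    fin_cases i <;> simp [dz]⟩

/-- the pattern: along the strip from `k` to its neighbour in direction `i` the extremal corners of
the cells are the corners on the line -/
def Pat (n m : ℕ) (a : Ev n → ℝ) (k : ℤ × ℤ) (i : Fin 4) : Prop :=
  ∀ j < m, (am (loc (cn n) a (sc n m k i j)) = i ∧ an (loc (cn n) a (sc n m k i j)) = op i) ∨
    (am (loc (cn n) a (sc n m k i j)) = op i ∧ an (loc (cn n) a (sc n m k i j)) = i)

open Classical in
/-- the energy of `h` on the good edges of `K` -/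
noncomputable def Eg (n m : ℕ) (a h : Ev n → ℝ) : ℝ :=
  ∑ k ∈ (LamI n m R0).filter (fun k => ¬ Bad n m a k), ∑ i : Fin 4,
    (h (ke n m (k + dz i)) - h (ke n m k)) ^ 2

/-- the energy of a function on `ℤ × ℤ` on the edges starting in `S` -/
noncomputable def Ez (S : Finset (ℤ × ℤ)) (h : ℤ × ℤ → ℝ) : ℝ :=
  ∑ k ∈ S, ∑ i : Fin 4, (h (k + dz i) - h k) ^ 2

end HK
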