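import Mathlib
import Pool.Agent.Lib_helper12.HK.DefsA

/-!
# Project HK, Part B: the adaptive quantile coupling. Auxiliary definitions.
-/

set_option autoImplicit false

namespace HK

open MeasureTheory QG

section
variable {A : Type} [Fintype A] [DecidableEq A]

/-- a legal state: `p` is not sampled, the coordinate `p` is `0`, the sampled coordinates have
positive marginal density -/
structure Lg (p : A) (f f' : (A → ℝ) → ℝ) (s : St A) : Prop where
  mem : p ∉ s.1
  z1 : s.2.1 p = 0
  z2 : s.2.2 p = 0
  p1 : 0 < mg f s.1 s.2.1
  p2 : 0 < mg f' s.1 s.2.2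

/-- uniform random numbers -/
abbrev Un (N : ℕ) : Type := Fin N → Set.Ioo (0 : ℝ) 1

/-- the uniform law -/
noncomputable def un1 : Measure (Set.Ioo (0 : ℝ) 1) := Measure.comap Subtype.val volume

/-- independent uniform random numbers -/
noncomputable def unN (N : ℕ) : Measure (Un N) := Measure.pi fun _ => un1

/-- `N` steps of the coupling -/
noncomputable def rn (f f' : (A → ℝ) → ℝ) (σ : St A → A) : (N : ℕ) → St A → Un N → St A
  | 0, s, _ => s
  | N + 1, s, u => rn f f' σ N (step f f' σ s (u 0)) (fun i => u i.succ)

end

end HK
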