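import Mathlib
import Pool.Agent.Lib_helper12.HK.Defs

/-!
# Project HK: topology of `ℤ × ℤ`, detours and circuits, the standing hypotheses. Definitions.
-/

set_option autoImplicit false

namespace HK

open MeasureTheory QG

/-- one step of a nearest neighbour path that avoids `B` -/
def av (B : Set (ℤ × ℤ)) (x y : ℤ × ℤ) : Prop := nn x y ∧ x ∉ B ∧ y ∉ B

/-- the vertices joined to infinity by nearest neighbour paths that avoid `B` -/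
def Ext (B : Set (ℤ × ℤ)) : Set (ℤ × ℤ) :=
  {k | k ∉ B ∧ ∀ r : ℕ, ∃ k', r ≤ di 0 k' ∧ Relation.ReflTransGen (av B) k k'}

/-- one step of a `*`-path in `Q` -/
def st (Q : Set (ℤ × ℤ)) (x y : ℤ × ℤ) : Prop := di x y ≤ 1 ∧ x ∈ Q ∧ y ∈ Q

/-- the `*`-component of `x` in `Q` -/
def sco (Q : Set (ℤ × ℤ)) (x : ℤ × ℤ) : Set (ℤ × ℤ) := {y | Relation.ReflTransGen (st Q) x y}

open Classical in
/-- the radius of the detour at `k` -/
noncomputable def rad (B : Set (ℤ × ℤ)) (k : ℤ × ℤ) : ℕ :=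
  if k ∈ Ext B then 0 else sSup {r | ∃ u ∈ sco (Ext B)ᶜ k, r = di k u + 1}

open Classical in
/-- the representative of `k`: `k` itself or a fixed exterior neighbour of its component -/
noncomputable def rep (B : Set (ℤ × ℤ)) (k : ℤ × ℤ) : ℤ × ℤ :=
  if k ∈ Ext B then k else
    Classical.epsilon fun y => y ∈ Ext B ∧ ∃ u ∈ sco (Ext B)ᶜ k, di u y ≤ 1

/-- `γ 0, …, γ N` is a self-avoiding nearest neighbour path -/
structure NPath (N : ℕ) (γ : ℕ → ℤ × ℤ) : Prop where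
  nn : ∀ j < N, nn (γ j) (γ (j + 1))
  inj : Set.InjOn γ (Set.Iic N)

/-- `γ 0, …, γ N` is a self-avoiding `*`-path -/
structure SPath (N : ℕ) (γ : ℕ → ℤ × ℤ) : Prop where
  st : ∀ j < N, di (γ j) (γ (j + 1)) ≤ 1
  inj : Set.InjOn γ (Set.Iic N)

/-- detours around `B` -/
structure Det (B : Set (ℤ × ℤ)) (ra : ℤ × ℤ → ℕ) (r : ℤ × ℤ → ℤ × ℤ) : Prop where
  mem : ∀ k, r k ∉ B
  dist : ∀ k, di k (r k) ≤ ra k
  path : ∀ k k', nn k k' → ∃ (N : ℕ) (γ : ℕ → ℤ × ℤ), NPath N γ ∧ γ 0 = r k ∧ γ N = r k' ∧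
    ∀ j ≤ N, γ j ∉ B ∧ di k (γ j) ≤ ra k + ra k' + 1

/-- the closure of `{lev ≥ ρ}`: with every vertex of `B` it contains its `*`-neighbours -/
inductive Cl (B : Set (ℤ × ℤ)) (z : ℤ × ℤ) (ρ : ℕ) : ℤ × ℤ → Prop
  | base {x : ℤ × ℤ} : ρ ≤ di z x → Cl B z ρ x
  | step {x y : ℤ × ℤ} : Cl B z ρ x → x ∈ B → di x y ≤ 1 → Cl B z ρ y

/-- the `*`-component of `z` in the complement of the closure -/
def Oc (B : Set (ℤ × ℤ)) (z : ℤ × ℤ) (ρ : ℕ) : Set (ℤ × ℤ) := sco {x | ¬ Cl B z ρ x} z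

/-- the circuit -/
def Gam (B : Set (ℤ × ℤ)) (z : ℤ × ℤ) (ρ : ℕ) : Set (ℤ × ℤ) :=
  {y | Cl B z ρ y ∧ ∃ o ∈ Oc B z ρ, di o y ≤ 1}

/-- the standing hypotheses (Parts C and D) for one `n`; `d = 2 m` -/
structure Hyp (n m : ℕ) [NeZero n] (p0 : ℝ) : Prop where
  big : 64 * m * (R0 + 10) ≤ n
  ev : Even m
  two : 2 ≤ m
  pos : 0 < p0
  bad : ∀ S : Finset (ℤ × ℤ), S ⊆ LamI n m R0 →
    (muh n 0) {a | ∀ k ∈ S, Bad n m a k} ≤ ENNReal.ofReal ((1 / 10 ^ 8) ^ S.card)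
  pat : ∀ k ∈ LamI n m R0, ∀ (i : Fin 4) (a : Ev n → ℝ), a (pp n) = 0 → ¬ Bad n m a k →
    ENNReal.ofReal p0 * lmg (fun x => ENNReal.ofReal (fh n x)) (nonK n m) a ≤
      lmg (fun x => ENNReal.ofReal (fh n x) * {x | Pat n m x k i}.indicator 1 x) (nonK n m) a

end HK
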