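import Mathlib
import Pool.Agent.Lib_helper12.HK.DefsE
import Pool.Agent.Lib_helper69.HKL.DefsL

/-!
# Project HK, Parts G, H, I: tilts, functionals on `K`, flows. Definitions.
-/

set_option autoImplicit false

namespace HK

open MeasureTheory QG

section
variable {A : Type} [Fintype A] [DecidableEq A]

/-- a tilt: a positive `C¹` function -/
structure Tilt (U : (A → ℝ) → ℝ) (U' : A → (A → ℝ) → ℝ) : Prop where
  cont : Continuous U
  pos : ∀ a, 0 < U a
  contD : ∀ k, Continuous (U' k)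
  der : ∀ k a, HasDerivAt (fun r => U (Function.update a k r)) (U' k a) (a k)

end

section
variable (n : ℕ) [NeZero n]

/-- the tilted density -/
noncomputable def fT (U : (Ev n → ℝ) → ℝ) (a : Ev n → ℝ) : ℝ :=
  fh n a * U a / ∫ b, fh n b * U b ∂bs (pp n)

/-- its weak derivatives -/
noncomputable def DT (U : (Ev n → ℝ) → ℝ) (U' : Ev n → (Ev n → ℝ) → ℝ) (k : Ev n)
    (a : Ev n → ℝ) : ℝ :=
  (Dh n k a * U a + fh n a * U' k a) / ∫ b, fh n b * U b ∂bs (pp n)

/-- the dissipation -/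
noncomputable def Dis (a a' : Ev n → ℝ) : ℝ := ∑ v, DD Gh (loc (cn n) a v) (loc (cn n) a' v)

end

/-- the region of the functionals -/
noncomputable def TT (n m : ℕ) : Finset (ℤ × ℤ) := LamI n m (n / (32 * m))

/-- `θ` is a flow of energy at most `R` for the functional `l` (the conclusion of `dual_nn`) -/
structure Flow (S : Finset (ℤ × ℤ)) (l : ℤ × ℤ → ℝ) (R : ℝ) (θ : ℤ × ℤ → Fin 4 → ℝ) : Prop where
  supp : ∀ k ∉ S, ∀ i, θ k i = 0
  eq : ∀ h : ℤ × ℤ → ℝ, pv S l h = ∑ k ∈ S, ∑ i, θ k i * (h (k + dz i) - h k)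
  le : ∑ k ∈ S, ∑ i, θ k i ^ 2 ≤ R

/-- the influence of the detours -/
noncomputable def ths (S : Finset (ℤ × ℤ)) (θ : ℤ × ℤ → Fin 4 → ℝ) (ra : ℤ × ℤ → ℕ)
    (x : ℤ × ℤ) : ℝ :=
  ∑ k ∈ S, ∑ i, if di k x ≤ ra k + ra (k + dz i) + 1 then |θ k i| else 0

/-- two random fields with the marginal properties used for the flows -/
structure Two (n : ℕ) [NeZero n] {Ω : Type} [MeasurableSpace Ω] (P : Measure Ω)
    (z z' : Ω → Ev n → ℝ) : Prop where
  prob : IsProbabilityMeasure P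
  meas : Measurable z
  meas' : Measurable z'
  law : P.map z = muh n 0
  zp : ∀ ω, z ω (pp n) = 0 ∧ z' ω (pp n) = 0 ∧ 0 < fh n (z ω) ∧ 0 < fh n (z' ω)

end HK
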