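import Mathlib
import Pool.Agent.Lib_helper12.HK.DefsG

/-!
# Project HK, Part H: the exploration policy. Definitions.
-/

set_option autoImplicit false

namespace HK

open MeasureTheory QG

/-- the even sites in the boxes of `O` -/
def bxs (n m : ℕ) (O : Set (ℤ × ℤ)) : Set (Ev n) :=
  {y | ∃ k ∈ O, ∃ s1 s2 : ℤ, -(m : ℤ) < s1 ∧ s1 ≤ m ∧ -(m : ℤ) < s2 ∧ s2 ≤ m ∧
    y.1 = (ke n m k).1 + ((s1 : ZMod (2 * n)), (s2 : ZMod (2 * n)))}

/-- the vertices of `B` whose window is sampled (`S`: the unsampled sites) -/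
def KB (n m : ℕ) (S : Finset (Ev n)) (B : Finset (ℤ × ℤ)) : Set (ℤ × ℤ) :=
  {k | k ∈ B ∧ ∀ k1, di k k1 ≤ R0 → ke n m k1 ∉ S}

/-- the window of the closure -/
def WC (n m : ℕ) (z : ℤ × ℤ) (ρ : ℕ) (S : Finset (Ev n)) (B : Finset (ℤ × ℤ)) : Set (ℤ × ℤ) :=
  {k | k ∈ Lam n m ∧ ∃ c, Cl (KB n m S B) z ρ c ∧ di c k ≤ R0}

open Classical in
/-- the unsampled vertices in the window of the closure -/
noncomputable def unW (n m : ℕ) (z : ℤ × ℤ) (ρ : ℕ) (S : Finset (Ev n)) (B : Finset (ℤ × ℤ)) :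
    Finset (ℤ × ℤ) :=
  (Lam n m).filter fun k => k ∈ WC n m z ρ S B ∧ ke n m k ∈ S

open Classical in
/-- the largest radius at most `ρm` with unsampled vertices -/
noncomputable def rex (n m : ℕ) (z : ℤ × ℤ) (ρm : ℕ) (S : Finset (Ev n)) (B : Finset (ℤ × ℤ)) : ℕ :=
  Nat.findGreatest (fun ρ => (unW n m z ρ S B).Nonempty) ρm

open Classical in
/-- the next site of the exploration around `z` -/
noncomputable def sx (n m : ℕ) [NeZero n] (z : ℤ × ℤ) (ρm : ℕ) (S : Finset (Ev n))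
    (B : Finset (ℤ × ℤ)) : Ev n :=
  if h : (unW n m z (rex n m z ρm S B) S B).Nonempty then ke n m h.choose
  else if h : (S \ nonK n m).Nonempty then h.choose
  else if h : S.Nonempty then h.choose else pp n

/-- the exploration policy -/
noncomputable def sig (n m : ℕ) [NeZero n] (z : ℤ × ℤ) (ρm : ℕ) (s : St (Ev n)) : Ev n :=
  sx n m z ρm s.1 (Bds n m s.2.1)

/-- the difference of the two fields at a `K`-site -/
def hK (n m : ℕ) (s : St (Ev n)) (k : ℤ × ℤ) : ℝ := s.2.2 (ke n m k) - s.2.1 (ke n m k)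

/-- the known bad vertices of a state -/
def KS (n m : ℕ) (s : St (Ev n)) : Set (ℤ × ℤ) := KB n m s.1 (Bds n m s.2.1)

/-- the constant of the maximum principle -/
def C2 (m : ℕ) : ℝ := 8 * m * (R0 + 2)

/-- the invariant of the exploration at the radius `ρ` -/
structure Inv (n m : ℕ) [NeZero n] (z : ℤ × ℤ) (ρ : ℕ) (s : St (Ev n)) : Prop where
  first : (∃ k ∈ Lam n m, ke n m k ∈ s.1) → ∀ y ∉ s.1, y ≠ pp n → ∃ k ∈ Lam n m, ke n m k = y
  inc : (unW n m z ρ s.1 (Bds n m s.2.1)).Nonempty → ∀ k ∈ Lam n m, ke n m k ∉ s.1 →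
    k ∈ WC n m z ρ s.1 (Bds n m s.2.1)
  com : ¬ (unW n m z ρ s.1 (Bds n m s.2.1)).Nonempty → ¬ Cl (KS n m s) z ρ z →
    ∀ k ∈ Oc (KS n m s) z ρ, ke n m k ∉ s.1 →
      (∀ M : ℝ, (∀ g ∈ Gam (KS n m s) z ρ, hK n m s g ≤ M) → hK n m s k ≤ M + C2 m) ∧
      ∀ M : ℝ, (∀ g ∈ Gam (KS n m s) z ρ, M ≤ hK n m s g) → M - C2 m ≤ hK n m s k

end HK
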