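import Mathlib
import Pool.Agent.Lib_helper12.HK.DefsH

/-!
# Project HK, Part I: decoupling. Definitions.
-/

set_option autoImplicit false

namespace HK

open MeasureTheory QG

open Classical in
/-- the circuit as a finite set -/
noncomputable def GF (n m : ℕ) (B : Set (ℤ × ℤ)) (z : ℤ × ℤ) (ρ : ℕ) : Finset (ℤ × ℤ) :=
  (LamI n m R0).filter fun g => g ∈ Gam B z ρ

/-- the tilt function of Part I -/
noncomputable def Ub {A : Type} [Fintype A] (u : ℝ → ℝ) (l : A → ℝ) (a : A → ℝ) : ℝ :=
  1 + u (dot l a) / 2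

/-- its partial derivatives -/
noncomputable def Ub' {A : Type} [Fintype A] (u' : ℝ → ℝ) (l : A → ℝ) (k : A) (a : A → ℝ) : ℝ :=
  l k * u' (dot l a) / 2

end HK
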